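import Mathlib
import Pool.Agent.H710R2.DP.Defs
import Pool.Agent.H710R2.DP.Defs2
import Pool.Agent.H710R2.DP.Tasks
import Pool.Agent.H710R2.DP.VTasks
import Pool.Agent.H226R2.Kad4.Dix

/-!
# One averaging step (task V03 of helper710, by helper231)
-/

open scoped ComplexOrder InnerProductSpace ComplexConjugate
open Finset

noncomputable section

namespace H710R2.DP

open H759R2.Kad

universe u

namespace V03

variable {A : Type u} [CStarAlgebra A] [PartialOrder A] [StarOrderedRing A]

theorem smul_mono {x y : A} {r : ℝ} (hr : 0 ≤ r) (h : x ≤ y) : r • x ≤ r • y :=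
  H759R2.Kad.F06.smul_mono hr h

/-- the symmetry that exchanges `v* v` and `v v*` -/
theorem sym {p v : A} (hvv' : v * star v * v = v) (hvp : v * p = v) (hpv : p * v = 0) :
    ∃ u : A, star u = u ∧ u * u = 1 ∧ u * (star v * v) * u = v * star v ∧
      u * (v * star v) * u = star v * v ∧ star v * v + v * star v ≤ 1 := by
  have hvv : v * v = 0 := by
    calc v * v = (v * p) * v := by rw [hvp]
      _ = v * (p * v) := mul_assoc _ _ _
      _ = 0 := by rw [hpv, mul_zero]
  have hss : star v * star v = 0 := by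
    have := congrArg star hvv
    rwa [star_mul, star_zero] at this
  have hs' : star v * v * star v = star v := by
    have := congrArg star hvv'
    rwa [star_mul, star_mul, star_star, ← mul_assoc] at this
  set a := star v * v with ha
  set b := v * star v with hb
  have hsa : star a = a := by rw [ha, star_mul, star_star]
  have hsb : star b = b := by rw [hb, star_mul, star_star]
  have haa : a * a = a := by
    calc a * a = star v * v * star v * v := by rw [ha]; noncomm_ring
      _ = a := by rw [hs']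
  have hbb : b * b = b := by
    calc b * b = v * star v * v * star v := by rw [hb]; noncomm_ring
      _ = b := by rw [hvv']
  have hab : a * b = 0 := by
    calc a * b = star v * (v * v) * star v := by rw [ha, hb]; noncomm_ring
      _ = 0 := by rw [hvv, mul_zero, zero_mul]
  have hba : b * a = 0 := by
    calc b * a = v * (star v * star v) * v := by rw [ha, hb]; noncomm_ring
      _ = 0 := by rw [hss, mul_zero, zero_mul]
  have hva : v * a = v := by rw [ha, ← mul_assoc, hvv']
  have hav : a * v = 0 := by rw [ha, mul_assoc, hvv, mul_zero]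
  have hvb : v * b = 0 := by rw [hb, ← mul_assoc, hvv, zero_mul]
  have hbv : b * v = v := by rw [hb, hvv']
  have hsva : star v * a = 0 := by rw [ha, ← mul_assoc, hss, zero_mul]
  have hasv : a * star v = star v := by rw [ha, hs']
  have hsvb : star v * b = star v := by rw [hb, ← mul_assoc, hs']
  have hbsv : b * star v = 0 := by rw [hb, mul_assoc, hss, mul_zero]
  set r := 1 - a - b with hr
  have hrs : star r = r := by rw [hr, star_sub, star_sub, star_one, hsa, hsb]
  have hra : r * a = 0 := by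
    have : r * a = a - a * a - b * a := by rw [hr]; noncomm_ring
    rw [this, haa, hba]; abel
  have hrb : r * b = 0 := by
    have : r * b = b - a * b - b * b := by rw [hr]; noncomm_ring
    rw [this, hab, hbb]; abel
  have hrr : r * r = r := by
    have : r * r = r - r * a - r * b := by rw [hr]; noncomm_ring
    rw [this, hra, hrb]; abel
  have hrv : r * v = 0 := by
    have : r * v = v - a * v - b * v := by rw [hr]; noncomm_ring
    rw [this, hav, hbv]; abel
  have hvr : v * r = 0 := by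
    have : v * r = v - v * a - v * b := by rw [hr]; noncomm_ring
    rw [this, hva, hvb]; abel
  have hrsv : r * star v = 0 := by
    have : r * star v = star v - a * star v - b * star v := by rw [hr]; noncomm_ring
    rw [this, hasv, hbsv]; abel
  have hsvr : star v * r = 0 := by
    have : star v * r = star v - star v * a - star v * b := by rw [hr]; noncomm_ring
    rw [this, hsva, hsvb]; abel
  refine ⟨v + star v + r, ?_, ?_, ?_, ?_, ?_⟩
  · rw [star_add, star_add, star_star, hrs]
    abel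
  · have : (v + star v + r) * (v + star v + r) = v * v + v * star v + v * r + star v * v +
        star v * star v + star v * r + r * v + r * star v + r * r := by noncomm_ring
    rw [this, hvv, hvr, hss, hsvr, hrv, hrsv, hrr, ← hb, ← ha, hr]
    abel
  · have e1 : (v + star v + r) * a = v * a + star v * a + r * a := by noncomm_ring
    rw [e1, hva, hsva, hra, add_zero, add_zero]
    have e2 : v * (v + star v + r) = v * v + v * star v + v * r := by noncomm_ring
    rw [e2, hvv, hvr, ← hb]
    abel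
  · have e1 : (v + star v + r) * b = v * b + star v * b + r * b := by noncomm_ring
    rw [e1, hvb, hsvb, hrb, add_zero, zero_add]
    have e2 : star v * (v + star v + r) = star v * v + star v * star v + star v * r := by
      noncomm_ring
    rw [e2, hss, hsvr, ← ha]
    abel
  · rw [← sub_nonneg]
    have : 1 - (a + b) = star r * r := by rw [hrs, hrr, hr]; abel
    rw [this]
    exact star_mul_self_nonneg _

theorem conj_cen {z x y : A} (hz : star z = z) (hzz : z * z = z) (hc : ∀ a, z * a = a * z)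
    (h : x ≤ y) : z * x ≤ z * y := by
  have h1 := star_left_conjugate_le_conjugate h z
  have e : ∀ w : A, star z * w * z = z * w := by
    intro w
    rw [hz, mul_assoc, ← hc w, ← mul_assoc, hzz]
  rwa [e, e] at h1

theorem step (HR : ∀ b : A, ∃ p : A, star p = p ∧ p * p = p ∧ p * b = b ∧
      ∀ x : A, x * b = 0 → x * p = 0)
    (HC : ∀ p q : A, star p = p → p * p = p → star q = q → q * q = q →
      ∃ v, v * star v * v = v ∧ v * p = v ∧ q * v = v ∧ ∃ z, star z = z ∧ z * z = z ∧
        (∀ a, z * a = a * z) ∧ z * (q - v * star v) = 0 ∧ (1 - z) * (p - star v * v) = 0)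
    {h : A} {δ : ℝ} (hδ : 0 ≤ δ) (hh : IsSelfAdjoint h) (h1 : -(δ • (1 : A)) ≤ h)
    (h2 : h ≤ δ • (1 : A)) :
    ∃ u : A, star u = u ∧ u * u = 1 ∧ ∃ z : A, star z = z ∧ z * z = z ∧ (∀ a, z * a = a * z) ∧
      -((3 / 4 * δ) • (1 : A)) ≤
        (2 : ℝ)⁻¹ • (h + u * h * u) - ((δ / 4) • z - (δ / 4) • (1 - z)) ∧
      (2 : ℝ)⁻¹ • (h + u * h * u) - ((δ / 4) • z - (δ / 4) • (1 - z)) ≤
        (3 / 4 * δ) • (1 : A) := by
  obtain ⟨p, hp, hpp, hpb, hx⟩ := HR h⁺
  have hb0 : 0 ≤ h⁺ := CFC.posPart_nonneg h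
  have hn0 : 0 ≤ h⁻ := CFC.negPart_nonneg h
  have hbs : star h⁺ = h⁺ := (IsSelfAdjoint.of_nonneg hb0)
  have hns : star h⁻ = h⁻ := (IsSelfAdjoint.of_nonneg hn0)
  have hbp : h⁺ * p = h⁺ := by
    have := congrArg star hpb
    rwa [star_mul, hp, hbs] at this
  have hnp : h⁻ * p = 0 := hx _ (CFC.negPart_mul_posPart h)
  have hpn : p * h⁻ = 0 := by
    have := congrArg star hnp
    rwa [star_mul, hp, hns, star_zero] at this
  have hdec : h⁺ - h⁻ = h := CFC.posPart_sub_negPart h hh
  have hA : h ≤ δ • p := by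
    have e1 : p * h * p = h⁺ := by
      calc p * h * p = p * (h⁺ - h⁻) * p := by rw [hdec]
        _ = p * h⁺ * p - p * h⁻ * p := by noncomm_ring
        _ = h⁺ := by rw [hpb, hbp, hpn, zero_mul, sub_zero]
    have e2 := star_left_conjugate_le_conjugate h2 p
    rw [hp, e1, mul_smul_comm, smul_mul_assoc, mul_one, hpp] at e2
    refine le_trans ?_ e2
    calc h = h⁺ - h⁻ := hdec.symm
      _ ≤ h⁺ := sub_le_self _ hn0
  have hB : -h ≤ δ • (1 - p) := by
    have e1 : (1 - p) * (-h) * (1 - p) = h⁻ := by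
      calc (1 - p) * (-h) * (1 - p) = (1 - p) * (-(h⁺ - h⁻)) * (1 - p) := by rw [hdec]
        _ = -(h⁺ - p * h⁺ - (h⁺ * p) + p * (h⁺ * p)) +
            (h⁻ - p * h⁻ - (h⁻ * p) + p * (h⁻ * p)) := by noncomm_ring
        _ = h⁻ := by rw [hbp, hpb, hnp, hpn, mul_zero]; abel
    have e0 : -h ≤ δ • (1 : A) := by
      have := neg_le_neg h1
      rwa [neg_neg] at this
    have e2 := star_left_conjugate_le_conjugate e0 (1 - p)
    have e3 : (1 - p) * (1 - p) = 1 - p := by
      have : (1 - p) * (1 - p) = 1 - p - p + p * p := by noncomm_ring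
      rw [this, hpp]; abel
    rw [star_sub, star_one, hp, e1, mul_smul_comm, smul_mul_assoc, mul_one, e3] at e2
    refine le_trans ?_ e2
    calc -h = h⁻ - h⁺ := by rw [← neg_sub h⁺ h⁻, hdec]
      _ ≤ h⁻ := sub_le_self _ hb0
  have hq : star (1 - p) = 1 - p := by rw [star_sub, star_one, hp]
  have hqq : (1 - p) * (1 - p) = 1 - p := by
    have : (1 - p) * (1 - p) = 1 - p - p + p * p := by noncomm_ring
    rw [this, hpp]; abel
  obtain ⟨v, hv1, hvp, hqv, z, hz, hzz, hzc, hz1, hz2⟩ := HC p (1 - p) hp hpp hq hqq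
  have hpv : p * v = 0 := by
    rw [sub_mul, one_mul, sub_eq_self] at hqv
    exact hqv
  obtain ⟨u, hu, huu, hu1, hu2, hle⟩ := sym hv1 hvp hpv
  set a := star v * v with ha
  set b := v * star v with hb
  refine ⟨u, hu, huu, z, hz, hzz, hzc, ?_⟩
  set w := 1 - z with hw
  have hws : star w = w := by rw [hw, star_sub, star_one, hz]
  have hww : w * w = w := by
    have : w * w = 1 - z - z + z * z := by rw [hw]; noncomm_ring
    rw [this, hzz, hw]; abel
  have hwc : ∀ a, w * a = a * w := by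
    intro a
    rw [hw, sub_mul, mul_sub, one_mul, mul_one, hzc]
  have hconj : ∀ x y : A, x ≤ y → u * x * u ≤ u * y * u := by
    intro x y hxy
    have := star_left_conjugate_le_conjugate hxy u
    rwa [hu] at this
  have hcu : ∀ (c x : A), (∀ a, c * a = a * c) → c * (u * x * u) = u * (c * x) * u := by
    intro c x hc
    rw [← mul_assoc, ← mul_assoc, hc u]
    noncomm_ring
  -- lower bound for both
  have hl2 : -(δ • (1 : A)) ≤ u * h * u := by
    refine le_trans (le_of_eq ?_) (hconj _ _ h1)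
    rw [mul_neg, neg_mul, mul_smul_comm, smul_mul_assoc, mul_one, huu]
  have hg2 : u * h * u ≤ δ • (1 : A) := by
    refine (hconj _ _ h2).trans (le_of_eq ?_)
    rw [mul_smul_comm, smul_mul_assoc, mul_one, huu]
  have hwp : w * p = w * a := by
    have := hz2
    rwa [mul_sub, sub_eq_zero] at this
  have hzq : z * (1 - p) = z * b := by
    have := hz1
    rwa [mul_sub, sub_eq_zero] at this
  -- on `w`
  have w1 : w * h ≤ δ • (w * a) := by
    have := conj_cen hws hww hwc hA
    rwa [mul_smul_comm, hwp] at this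
  have w2 : w * (u * h * u) ≤ δ • (w * b) := by
    have h3 := hconj _ _ w1
    rw [← hcu w h hwc, mul_smul_comm, smul_mul_assoc, ← hcu w a hwc, hu1] at h3
    exact h3
  have w3 : w * (h + u * h * u) ≤ δ • w := by
    rw [mul_add]
    refine (add_le_add w1 w2).trans ?_
    rw [← smul_add, ← mul_add]
    refine smul_mono hδ ?_
    have := conj_cen hws hww hwc hle
    rwa [mul_one] at this
  have w4 : -((2 * δ) • w) ≤ w * (h + u * h * u) := by
    have h3 := conj_cen hws hww hwc (add_le_add h1 hl2)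
    refine le_trans (le_of_eq ?_) h3
    rw [mul_add, mul_neg, mul_smul_comm, mul_one, two_mul, add_smul]
    abel
  -- on `z`
  have z1 : z * (-h) ≤ δ • (z * b) := by
    have := conj_cen hz hzz hzc hB
    rwa [mul_smul_comm, hzq] at this
  have z2 : z * (-(u * h * u)) ≤ δ • (z * a) := by
    have h3 := hconj _ _ z1
    rw [← hcu z (-h) hzc, mul_smul_comm, smul_mul_assoc, ← hcu z b hzc, hu2] at h3
    have e : u * -h * u = -(u * h * u) := by noncomm_ring
    rwa [e] at h3
  have z3 : -(δ • z) ≤ z * (h + u * h * u) := by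
    have h3 : -(z * (h + u * h * u)) ≤ δ • z := by
      have e : -(z * (h + u * h * u)) = z * (-h) + z * (-(u * h * u)) := by noncomm_ring
      rw [e]
      refine (add_le_add z1 z2).trans ?_
      rw [← smul_add, ← mul_add, add_comm b a]
      refine smul_mono hδ ?_
      have := conj_cen hz hzz hzc hle
      rwa [mul_one] at this
    have := neg_le_neg h3
    rwa [neg_neg] at this
  have z4 : z * (h + u * h * u) ≤ (2 * δ) • z := by
    have h3 := conj_cen hz hzz hzc (add_le_add h2 hg2)
    refine h3.trans (le_of_eq ?_)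
    rw [mul_add, mul_smul_comm, mul_one, two_mul, add_smul]
  set y := h + u * h * u with hy
  have hyd : y = w * y + z * y := by
    rw [← add_mul, hw, sub_add_cancel, one_mul]
  have h1wz : (1 : A) = w + z := by rw [hw, sub_add_cancel]
  constructor
  · have h3 := smul_mono (r := (2 : ℝ)⁻¹) (by norm_num) (add_le_add w4 z3)
    rw [← hyd] at h3
    have h4 := sub_le_sub_right h3 ((δ / 4) • z - (δ / 4) • w)
    refine le_trans (le_of_eq ?_) h4
    rw [h1wz, smul_add, smul_add, smul_neg, smul_neg, smul_smul, smul_smul]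
    have e1 : (3 / 4 * δ) • w = ((2 : ℝ)⁻¹ * (2 * δ)) • w - (δ / 4) • w := by
      rw [← sub_smul]; congr 1; ring
    have e2 : (3 / 4 * δ) • z = ((2 : ℝ)⁻¹ * δ) • z + (δ / 4) • z := by
      rw [← add_smul]; congr 1; ring
    rw [e1, e2]
    abel
  · have h3 := smul_mono (r := (2 : ℝ)⁻¹) (by norm_num) (add_le_add w3 z4)
    rw [← hyd] at h3
    have h4 := sub_le_sub_right h3 ((δ / 4) • z - (δ / 4) • w)
    refine h4.trans (le_of_eq ?_)
    rw [h1wz, smul_add, smul_add, smul_smul, smul_smul]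
    have e1 : (3 / 4 * δ) • w = ((2 : ℝ)⁻¹ * δ) • w + (δ / 4) • w := by
      rw [← add_smul]; congr 1; ring
    have e2 : (3 / 4 * δ) • z = ((2 : ℝ)⁻¹ * (2 * δ)) • z - (δ / 4) • z := by
      rw [← sub_smul]; congr 1; ring
    rw [e1, e2]
    abel

theorem norm_le {y : A} {r : ℝ} (hr : 0 ≤ r) (hs : IsSelfAdjoint y) (h1 : -(r • (1 : A)) ≤ y)
    (h2 : y ≤ r • (1 : A)) : ‖y‖ ≤ r := by
  rcases subsingleton_or_nontrivial A with hA | hA
  · rw [Subsingleton.elim y 0, norm_zero]
    exact hr
  · rw [← Algebra.algebraMap_eq_smul_one, ← map_neg] at h1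
    rw [← Algebra.algebraMap_eq_smul_one r] at h2
    rw [algebraMap_le_iff_le_spectrum hs] at h1
    rw [le_algebraMap_iff_spectrum_le hs] at h2
    rcases CStarAlgebra.norm_or_neg_norm_mem_spectrum hs with h6 | h6
    · exact h2 _ h6
    · have := h1 _ h6
      linarith

theorem norm_step (HR : ∀ b : A, ∃ p : A, star p = p ∧ p * p = p ∧ p * b = b ∧
      ∀ x : A, x * b = 0 → x * p = 0)
    (HC : ∀ p q : A, star p = p → p * p = p → star q = q → q * q = q →
      ∃ v, v * star v * v = v ∧ v * p = v ∧ q * v = v ∧ ∃ z, star z = z ∧ z * z = z ∧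
        (∀ a, z * a = a * z) ∧ z * (q - v * star v) = 0 ∧ (1 - z) * (p - star v * v) = 0)
    {x z₀ : A} {r : ℝ} (hx : IsSelfAdjoint x) (hz₀ : IsSelfAdjoint z₀)
    (hc : ∀ a, z₀ * a = a * z₀) (h : ‖x - z₀‖ ≤ r) :
    ∃ u : A, star u = u ∧ u * u = 1 ∧ ∃ z₁ : A, (∀ a, z₁ * a = a * z₁) ∧ IsSelfAdjoint z₁ ∧
      ‖(1 / 2 : ℂ) • (x + u * x * u) - z₁‖ ≤ 3 / 4 * r := by
  have hr : 0 ≤ r := (norm_nonneg _).trans h
  have hh : IsSelfAdjoint (x - z₀) := hx.sub hz₀
  have hmono : ‖x - z₀‖ • (1 : A) ≤ r • (1 : A) := by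
    rw [← sub_nonneg, ← sub_smul]
    have := smul_mono (A := A) (r := r - ‖x - z₀‖) (by linarith) (zero_le_one (α := A))
    rwa [smul_zero] at this
  have h2 : x - z₀ ≤ r • (1 : A) := by
    have := hh.le_algebraMap_norm_self
    rw [Algebra.algebraMap_eq_smul_one] at this
    exact this.trans hmono
  have h1 : -(r • (1 : A)) ≤ x - z₀ := by
    have := hh.neg_algebraMap_norm_le_self
    rw [Algebra.algebraMap_eq_smul_one] at this
    exact (neg_le_neg hmono).trans this
  obtain ⟨u, hu, huu, z, hz, hzz, hzc, h3, h4⟩ := step HR HC hr hh h1 h2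
  have hcz : IsSelfAdjoint ((r / 4) • z - (r / 4) • (1 - z)) := by
    apply IsSelfAdjoint.sub
    · exact IsSelfAdjoint.smul (IsSelfAdjoint.all _) hz
    · exact IsSelfAdjoint.smul (IsSelfAdjoint.all _) ((IsSelfAdjoint.one A).sub hz)
  have hself : IsSelfAdjoint ((2 : ℝ)⁻¹ • (x - z₀ + u * (x - z₀) * u) -
      ((r / 4) • z - (r / 4) • (1 - z))) := by
    apply IsSelfAdjoint.sub _ hcz
    apply IsSelfAdjoint.smul (IsSelfAdjoint.all _)
    apply hh.add
    have := hh.conjugate u
    rwa [hu] at this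
  have h5 := norm_le (by positivity) hself h3 h4
  refine ⟨u, hu, huu, z₀ + ((r / 4) • z - (r / 4) • (1 - z)), ?_, hz₀.add hcz, ?_⟩
  · intro a
    rw [add_mul, mul_add, hc a, sub_mul, mul_sub, smul_mul_assoc, smul_mul_assoc, mul_smul_comm,
      mul_smul_comm, sub_mul, mul_sub, one_mul, mul_one, hzc a]
  · refine le_trans (le_of_eq ?_) h5
    congr 1
    have e0 : u * (x - z₀) * u = u * x * u - z₀ := by
      have e5 : u * (x - z₀) * u = u * x * u - (u * z₀) * u := by noncomm_ring
      have e6 : (u * z₀) * u = z₀ := by rw [← hc u, mul_assoc, huu, mul_one]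
      rw [e5, e6]
    have e1 : ((1 / 2 : ℂ)) • (x + u * x * u) = (2 : ℝ)⁻¹ • (x + u * x * u) := by
      have : ((1 / 2 : ℂ)) = (((2 : ℝ)⁻¹ : ℝ) : ℂ) := by norm_num
      rw [this, Complex.coe_smul]
    have e2 : x - z₀ + (u * x * u - z₀) = (x + u * x * u) - (2 : ℝ) • z₀ := by
      rw [two_smul]; abel
    have e3 : (2 : ℝ)⁻¹ • ((x + u * x * u) - (2 : ℝ) • z₀) =
        (2 : ℝ)⁻¹ • (x + u * x * u) - z₀ := by
      rw [smul_sub, smul_smul]
      norm_num
    rw [e0, e1, e2, e3]
    abel

end V03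

theorem dp_Vstep (h1 : V_comp) (h2 : F_range.{0}) : V_step := by
  intro H _ _ _ M x z₀ r hx hxs hz₀ hz₀s hn
  letI := CStarAlgebra.spectralOrder M.toStarSubalgebra
  haveI := CStarAlgebra.spectralOrderedRing M.toStarSubalgebra
  have key := V03.norm_step (A := M.toStarSubalgebra) (x := ⟨x, hx⟩) (z₀ := ⟨z₀, hz₀.1⟩) (r := r)
    ?_ ?_ (Subtype.ext hxs) (Subtype.ext hz₀s) (fun a => Subtype.ext (hz₀.2 a a.2)) hn
  · obtain ⟨u, hu, huu, z₁, hz1, hz1s, hle⟩ := key
    refine ⟨u, u.2, congrArg Subtype.val hu, congrArg Subtype.val huu, z₁,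
      ⟨z₁.2, fun a ha => congrArg Subtype.val (hz1 ⟨a, ha⟩)⟩, congrArg Subtype.val hz1s, hle⟩
  · rintro ⟨b, hb⟩
    obtain ⟨p, hpM, ⟨hp1, hp2⟩, hp3, hp4⟩ := h2 H M b hb
    refine ⟨⟨p, hpM⟩, Subtype.ext hp1, Subtype.ext hp2, Subtype.ext hp3, ?_⟩
    rintro ⟨x, hx⟩ h
    exact Subtype.ext (hp4 x (congrArg Subtype.val h))
  · rintro ⟨p, hp⟩ ⟨q, hq⟩ hp1 hp2 hq1 hq2
    obtain ⟨v, hvM, hvI, hvp, hqv, z, ⟨⟨hzs, hzz⟩, hzM, hzc⟩, hz1, hz2⟩ := h1 H M p hp q hq
      ⟨congrArg Subtype.val hp1, congrArg Subtype.val hp2⟩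
      ⟨congrArg Subtype.val hq1, congrArg Subtype.val hq2⟩
    exact ⟨⟨v, hvM⟩, Subtype.ext hvI, Subtype.ext hvp, Subtype.ext hqv, ⟨z, hzM⟩,
      Subtype.ext hzs, Subtype.ext hzz, fun a => Subtype.ext (hzc a a.2), Subtype.ext hz1,
      Subtype.ext hz2⟩

end H710R2.DP
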